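import Pool.Agent.Lib.MP_4fbe7c_an.RS.Iface
import Pool.Agent.Lib.MP_4fbe7c_an.SD.Apri1

/-!
Project RS (MP_4fbe7c_an): module RLG, Jensen and bounds for `lg`.
-/

set_option autoImplicit false

open Set

namespace Pool.Agent.Lib.MP_4fbe7c_an.RS.H95

open Pool.Agent.Lib.MP_4fbe7c_an.SD Pool.Agent.Lib.MP_4fbe7c_an.FC
  Pool.Agent.Lib.MP_4fbe7c_an.WH Pool.Agent.Lib.MP_4fbe7c_an.RS MeasureTheory

theorem rlg (h : OscStatement) : RlgStatement := by
  intro L M m₀ m θ N d u v w hX hm₀ hθc hθ t ht k
  have hL := hX.hL
  have hsol := hX.sol
  have cu : ∀ k, ContinuousOn (fun x => u k t x) (Icc 0 L) := fun k =>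
    (hsol.cu k).comp (continuousOn_const.prodMk continuousOn_id) fun x hx => ⟨ht.le, hx⟩
  have cv : ∀ k, ContinuousOn (fun x => v k t x) (Icc 0 L) := fun k =>
    (hsol.cv k).comp (continuousOn_const.prodMk continuousOn_id) fun x hx => ⟨ht, hx⟩
  have hII : ∀ f : ℝ → ℝ, ContinuousOn f (Icc 0 L) → IntervalIntegrable f volume 0 L :=
    fun f hf => hf.intervalIntegrable_of_Icc hL.le
  have hnn : ∀ k, ∀ x ∈ Icc 0 L, 0 ≤ u k t x := fun k x hx =>
    nonneg hL hX.hm hX.hd hsol k t ht.le x hx
  have hmu : ∀ k, 0 ≤ mu L u k t := fun k =>
    intervalIntegral.integral_nonneg hL.le fun x hx => hnn k x hx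
  have hθpos : ∀ x ∈ Icc 0 L, 0 < θ x := fun x hx => hm₀.trans_le (hθ x hx)
  have hmass : mass L u t = ∑ i, mu L u i t := by
    unfold mass mu
    exact intervalIntegral.integral_finsetSum fun k _ => hII _ (cu k)
  have herase : ∑ i ∈ Finset.univ.erase k, mu L u i t =
      ∫ x in (0)..L, ∑ i ∈ Finset.univ.erase k, u i t x := by
    unfold mu
    exact (intervalIntegral.integral_finsetSum fun k _ => hII _ (cu k)).symm
  refine ⟨hmu k, ?_, ?_, ?_⟩
  · intro ha
    unfold mu
    have : ∫ x in (0)..L, u k t x = ∫ x in (0)..L, (0:ℝ) := by
      apply intervalIntegral.integral_congr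
      intro x hx
      rw [uIcc_of_le hL.le] at hx
      exact ha t ht.le x hx
    rw [this]
    simp
  · rw [hmass]
    exact Finset.sum_le_sum_of_subset_of_nonneg (Finset.subset_univ _) fun i _ _ => hmu i
  · intro hp
    have hpos : ∀ x ∈ Icc 0 L, 0 < u k t x := fun x hx => hp t ht x hx
    have hG : 0 < gm L u k t := Real.exp_pos _
    have clog : ContinuousOn (fun x => Real.log (u k t x)) (Icc 0 L) :=
      (cu k).log fun x hx => (hpos x hx).ne'
    -- Jensen
    have hJ : L * gm L u k t ≤ mu L u k t := by
      have h2 : ∀ x ∈ Icc 0 L, gm L u k t * (1 + Real.log (u k t x) - lg L u k t / L) ≤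
          u k t x := by
        intro x hx
        have hu := hpos x hx
        have h3 := Real.log_le_sub_one_of_pos (div_pos hu hG)
        have h4 : Real.log (u k t x / gm L u k t) = Real.log (u k t x) - lg L u k t / L := by
          rw [Real.log_div hu.ne' hG.ne']
          unfold gm
          rw [Real.log_exp]
        rw [h4] at h3
        have h5 : 1 + Real.log (u k t x) - lg L u k t / L ≤ u k t x / gm L u k t := by
          linarith
        calc gm L u k t * (1 + Real.log (u k t x) - lg L u k t / L)
            ≤ gm L u k t * (u k t x / gm L u k t) := mul_le_mul_of_nonneg_left h5 hG.le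
          _ = u k t x := by field_simp
      have h6 := intervalIntegral.integral_mono_on hL.le
        (hII (fun x => gm L u k t * (1 + Real.log (u k t x) - lg L u k t / L))
          (continuousOn_const.mul ((continuousOn_const.add clog).sub continuousOn_const)))
        (hII _ (cu k)) h2
      have h7 : ∫ x in (0)..L, gm L u k t * (1 + Real.log (u k t x) - lg L u k t / L) =
          L * gm L u k t := by
        rw [intervalIntegral.integral_const_mul,
          intervalIntegral.integral_sub ((hII _ continuousOn_const).add (hII _ clog))
            (hII _ continuousOn_const),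
          intervalIntegral.integral_add (hII _ continuousOn_const) (hII _ clog),
          intervalIntegral.integral_const, intervalIntegral.integral_const]
        have h8 : ∫ x in (0)..L, Real.log (u k t x) = lg L u k t := rfl
        rw [h8]
        simp only [smul_eq_mul, sub_zero, mul_one]
        have hL' : L ≠ 0 := hL.ne'
        field_simp
        ring
      rw [h7] at h6
      exact h6
    have hmupos : 0 < mu L u k t := (mul_pos hL hG).trans_le hJ
    have hLne : L ≠ 0 := hL.ne'
    refine ⟨hmupos, hJ, ?_, ?_, ?_⟩
    · -- upper bound by oscillation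
      have hyy : 0 ≤ yy L u v k t :=
        intervalIntegral.integral_nonneg hL.le fun x _ => sq_nonneg _
      have hosc := (h L (yy L u v k t) (u k t) (v k t) hL hyy (hsol.dx k t ht) (cv k) hpos
        le_rfl).1
      have hle : ∀ x ∈ Icc 0 L, u k t x ≤
          gm L u k t * Real.exp (1 + L * yy L u v k t) := by
        intro x hx
        have h1 := (abs_le.mp (hosc x hx).1).2
        have h2 : Real.log (u k t x) ≤ lg L u k t / L + (1 + L * yy L u v k t) := by
          have : (∫ x in (0)..L, Real.log (u k t x)) = lg L u k t := rfl
          rw [this] at h1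
          linarith
        calc u k t x = Real.exp (Real.log (u k t x)) := (Real.exp_log (hpos x hx)).symm
          _ ≤ Real.exp (lg L u k t / L + (1 + L * yy L u v k t)) := Real.exp_le_exp.mpr h2
          _ = gm L u k t * Real.exp (1 + L * yy L u v k t) := by
            rw [Real.exp_add]; rfl
      have h6 := intervalIntegral.integral_mono_on hL.le (hII _ (cu k))
        (hII (fun _ => gm L u k t * Real.exp (1 + L * yy L u v k t)) continuousOn_const) hle
      rw [intervalIntegral.integral_const, smul_eq_mul, sub_zero] at h6
      calc mu L u k t ≤ L * (gm L u k t * Real.exp (1 + L * yy L u v k t)) := h6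
        _ = L * gm L u k t * Real.exp (1 + L * yy L u v k t) := by ring
    · -- lg bound
      have h1 : gm L u k t ≤ mu L u k t / L := by
        rw [le_div_iff₀ hL]; linarith
      have h2 := Real.log_le_log hG h1
      have h3 : Real.log (gm L u k t) = lg L u k t / L := by
        unfold gm; rw [Real.log_exp]
      rw [h3, div_le_iff₀ hL] at h2
      linarith
    · -- the functional Vr
      have hr : ∀ x ∈ Icc 0 L, 0 ≤ u k t x - θ x - θ x * Real.log (u k t x / θ x) := by
        intro x hx
        have hθx := hθpos x hx
        have h3 := Real.log_le_sub_one_of_pos (div_pos (hpos x hx) hθx)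
        have h4 := mul_le_mul_of_nonneg_left h3 hθx.le
        have h5 : θ x * (u k t x / θ x - 1) = u k t x - θ x := by field_simp
        linarith
      have clogq : ContinuousOn (fun x => Real.log (u k t x / θ x)) (Icc 0 L) :=
        ((cu k).div hθc fun x hx => (hθpos x hx).ne').log
          fun x hx => (div_pos (hpos x hx) (hθpos x hx)).ne'
      have cP : ContinuousOn (fun x => u k t x - θ x - θ x * Real.log (u k t x / θ x))
          (Icc 0 L) := ((cu k).sub hθc).sub (hθc.mul clogq)
      have cW : ContinuousOn (fun x => ∑ i ∈ Finset.univ.erase k, u i t x) (Icc 0 L) :=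
        continuousOn_finsetSum _ fun i _ => cu i
      have hV : Vr L θ u k t =
          (∫ x in (0)..L, (u k t x - θ x - θ x * Real.log (u k t x / θ x))) +
          ∑ i ∈ Finset.univ.erase k, mu L u i t := by
        unfold Vr
        rw [herase, ← intervalIntegral.integral_add (hII _ cP) (hII _ cW)]
      have hP0 : 0 ≤ ∫ x in (0)..L, (u k t x - θ x - θ x * Real.log (u k t x / θ x)) :=
        intervalIntegral.integral_nonneg hL.le hr
      have hW0 : 0 ≤ ∑ i ∈ Finset.univ.erase k, mu L u i t :=
        Finset.sum_nonneg fun i _ => hmu i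
      refine ⟨by rw [hV]; linarith, ?_⟩
      have hpw : ∀ x ∈ Icc 0 L, Real.log m₀ - 1 -
          (u k t x - θ x - θ x * Real.log (u k t x / θ x)) / m₀ ≤ Real.log (u k t x) := by
        intro x hx
        have hθx := hθpos x hx
        have hux := hpos x hx
        have hq : 0 < u k t x / θ x := div_pos hux hθx
        have h1 : Real.log (u k t x) = Real.log (θ x) + Real.log (u k t x / θ x) := by
          rw [Real.log_div hux.ne' hθx.ne']; ring
        have h2 : Real.log m₀ ≤ Real.log (θ x) := Real.log_le_log hm₀ (hθ x hx)
        have h3 : θ x * (u k t x / θ x - 1 - Real.log (u k t x / θ x)) =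
            u k t x - θ x - θ x * Real.log (u k t x / θ x) := by
          field_simp
        have h4 : 0 ≤ u k t x / θ x - 1 - Real.log (u k t x / θ x) := by
          have := Real.log_le_sub_one_of_pos hq
          linarith
        have h5 : u k t x / θ x - 1 - Real.log (u k t x / θ x) ≤
            (u k t x - θ x - θ x * Real.log (u k t x / θ x)) / m₀ := by
          rw [le_div_iff₀ hm₀, ← h3]
          nlinarith [hθ x hx]
        rw [h1]
        linarith
      have h6 := intervalIntegral.integral_mono_on hL.le
        (hII (fun x => (Real.log m₀ - 1) -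
          (u k t x - θ x - θ x * Real.log (u k t x / θ x)) / m₀)
          (continuousOn_const.sub (cP.div_const m₀)))
        (hII _ clog) hpw
      have h61 : ∫ x in (0)..L, ((Real.log m₀ - 1) -
          (u k t x - θ x - θ x * Real.log (u k t x / θ x)) / m₀) =
          L * (Real.log m₀ - 1) -
          (∫ x in (0)..L, (u k t x - θ x - θ x * Real.log (u k t x / θ x))) / m₀ := by
        rw [intervalIntegral.integral_sub (hII (fun _ => Real.log m₀ - 1) continuousOn_const)
          (hII (fun x => (u k t x - θ x - θ x * Real.log (u k t x / θ x)) / m₀)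
            (cP.div_const m₀)),
          intervalIntegral.integral_const, smul_eq_mul, sub_zero]
        congr 1
        exact intervalIntegral.integral_div _ _
      rw [h61] at h6
      have h7 : (∫ x in (0)..L, (u k t x - θ x - θ x * Real.log (u k t x / θ x))) / m₀ ≤
          Vr L θ u k t / m₀ := by
        apply div_le_div_of_nonneg_right _ hm₀.le
        rw [hV]; linarith
      have h8 : (∫ x in (0)..L, Real.log (u k t x)) = lg L u k t := rfl
      rw [h8] at h6
      linarith

end Pool.Agent.Lib.MP_4fbe7c_an.RS.H95
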